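import Pool.Agent.Helper26.WR.Stmts

set_option autoImplicit false

/-! # A central element survives in some base group -/

namespace Pool.Agent.Helper26.WR

open Pool.Agent.Helper21.DN

theorem st_CENG : ST_CENG := by
  classical
  intro J _ W B _ _ _ _ _ Q _ _ _ _ hfaith z hz hz1
  have hcomm := Subgroup.mem_center_iff.mp hz
  have hact : ∀ (j : J) (w : W j), z.right • w = w := by
    intro j w
    by_contra hne
    obtain ⟨b, hb⟩ := exists_ne (1 : B j)
    have h1 := hcomm (⟨Pi.mulSingle j (Pi.mulSingle w b), 1⟩ : WreathProduct W B Q)
    have h2 := congrArg (fun x : WreathProduct W B Q => x.left j (z.right • w)) h1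
    simp only [SemidirectProduct.mul_left, Pi.mul_apply, map_one, MulAut.one_apply,
      Pi.mulSingle_eq_same] at h2
    have h3 : (permute W B Q z.right
        (Pi.mulSingle j (Pi.mulSingle w b) : ∀ j, W j → B j)) j (z.right • w) = b := by
      show (Pi.mulSingle j (Pi.mulSingle w b) : ∀ j, W j → B j) j
        (z.right⁻¹ • z.right • w) = b
      rw [inv_smul_smul, Pi.mulSingle_eq_same, Pi.mulSingle_eq_same]
    rw [h3, Pi.mulSingle_eq_of_ne hne, one_mul] at h2
    exact hb (by
      have h4 : z.left j (z.right • w) * 1 = z.left j (z.right • w) * b := by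
        rw [mul_one]
        exact h2
      exact (mul_left_cancel h4).symm)
  have hr : z.right = 1 := hfaith z.right hact
  have hl : ∃ (j : J) (w : W j), z.left j w ≠ 1 := by
    by_contra hcon
    push Not at hcon
    apply hz1
    apply SemidirectProduct.ext
    · funext j w
      rw [hcon j w]
      rfl
    · rw [hr]
      rfl
  obtain ⟨j, w, hjw⟩ := hl
  let H : Subgroup (WreathProduct W B Q) :=
    (MulAction.stabilizer Q w).comap SemidirectProduct.rightHom
  have hH : ∀ x : WreathProduct W B Q, x ∈ H → x.right⁻¹ • w = w := by
    intro x hx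
    have h1 : x.right • w = w := hx
    rw [inv_smul_eq_iff]
    exact h1.symm
  let f : H →* B j :=
    { toFun := fun x => x.1.left j w
      map_one' := rfl
      map_mul' := by
        intro x y
        show (x.1.left * permute W B Q x.1.right y.1.left) j w = x.1.left j w * y.1.left j w
        show x.1.left j w * y.1.left j (x.1.right⁻¹ • w) = x.1.left j w * y.1.left j w
        rw [hH x.1 x.2] }
  have hzH : z ∈ H := by
    show z.right • w = w
    exact hact j w
  refine ⟨j, H, f, hzH, ?_, hjw, ?_⟩
  · intro b
    refine ⟨⟨⟨Pi.mulSingle j (fun _ => b), 1⟩, ?_⟩, ?_⟩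
    · show (1 : Q) • w = w
      exact one_smul Q w
    · show (Pi.mulSingle j (fun _ => b) : ∀ j, W j → B j) j w = b
      rw [Pi.mulSingle_eq_same]
  · show ((MulAction.stabilizer Q w).comap
      (SemidirectProduct.rightHom : WreathProduct W B Q →* Q)).index = _
    rw [Subgroup.index_comap_of_surjective _ SemidirectProduct.rightHom_surjective]
    exact MulAction.index_stabilizer_of_transitive Q w

end Pool.Agent.Helper26.WR
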